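import Pool.Agent.H25.TRI.Targets

/-! MP_2697e3_an, ULP: bounds of the heat extension. -/

set_option autoImplicit false

namespace Pool.Agent.H89.TRI

open MeasureTheory Metric Set Filter Topology Pool.Agent.H87.SN Pool.Agent.H25.TRI
open scoped ContDiff RealInnerProductSpace ENNReal

/-- Cauchy-Schwarz for weighted lower integrals -/
theorem cs_lintegral {α : Type*} [MeasurableSpace α] {μ : Measure α} {w u : α → ℝ≥0∞}
    (hw : AEMeasurable w μ) (hu : AEMeasurable u μ) :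
    (∫⁻ x, w x * u x ∂μ) ^ 2 ≤ (∫⁻ x, w x ∂μ) * ∫⁻ x, w x * u x ^ 2 ∂μ := by
  have hc : Real.HolderConjugate 2 2 := Real.HolderConjugate.two_two
  have h := ENNReal.lintegral_mul_le_Lp_mul_Lq μ hc
    (f := fun x => w x ^ (1 / 2 : ℝ)) (g := fun x => w x ^ (1 / 2 : ℝ) * u x)
    (hw.pow_const _) ((hw.pow_const _).mul hu)
  have e1 : ∀ x, (w x ^ (1 / 2 : ℝ)) * (w x ^ (1 / 2 : ℝ) * u x) = w x * u x := by
    intro x
    rw [← mul_assoc, ← ENNReal.rpow_add_of_nonneg _ _ (by norm_num) (by norm_num)]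
    norm_num
  have e2 : ∀ x, (w x ^ (1 / 2 : ℝ)) ^ (2 : ℝ) = w x := by
    intro x
    rw [← ENNReal.rpow_mul]
    norm_num
  have e3 : ∀ x, (w x ^ (1 / 2 : ℝ) * u x) ^ (2 : ℝ) = w x * u x ^ 2 := by
    intro x
    rw [ENNReal.mul_rpow_of_nonneg _ _ (by norm_num), e2]
    norm_cast
  simp only [Pi.mul_apply, e1, e2, e3] at h
  calc (∫⁻ x, w x * u x ∂μ) ^ 2
      ≤ ((∫⁻ x, w x ∂μ) ^ (1 / 2 : ℝ) * (∫⁻ x, w x * u x ^ 2 ∂μ) ^ (1 / 2 : ℝ)) ^ 2 := by
        gcongr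
    _ = (∫⁻ x, w x ∂μ) * ∫⁻ x, w x * u x ^ 2 ∂μ := by
        rw [mul_pow, ← ENNReal.rpow_natCast, ← ENNReal.rpow_natCast, ← ENNReal.rpow_mul,
          ← ENNReal.rpow_mul]
        norm_num

theorem avg {n : ℕ} (w F : E n → ℝ≥0∞) (hw : Measurable w) (hF : Measurable F) (c : ℝ)
    (h1 : ∫⁻ z, w z = 1) : ∫⁻ x, ∫⁻ z, w z * F (x - c • z) = ∫⁻ x, F x := by
  have hm : Measurable fun p : E n × E n => w p.2 * F (p.1 - c • p.2) :=
    (hw.comp measurable_snd).mul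
      (hF.comp (measurable_fst.sub (measurable_snd.const_smul c)))
  rw [lintegral_lintegral_swap (f := fun x z => w z * F (x - c • z)) hm.aemeasurable]
  calc ∫⁻ z, ∫⁻ x, w z * F (x - c • z) = ∫⁻ z, w z * ∫⁻ x, F x := by
        refine lintegral_congr fun z => ?_
        have hs : Measurable fun x : E n => x - c • z := by fun_prop
        have hFm : Measurable fun x : E n => F (x - c • z) := hF.comp hs
        rw [lintegral_const_mul _ hFm, lintegral_sub_right_eq_self F (c • z)]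
    _ = ∫⁻ x, F x := by
        rw [lintegral_mul_const _ hw, h1, one_mul]

theorem pf_ULP (hGAU : T_GAU) : T_ULP := by
  intro n f hf s
  obtain ⟨g1, g2, g3, g4, -⟩ := hGAU n
  have hgm : Measurable (gam : E n → ℝ) := g4.continuous.measurable
  have hfm : Measurable f := hf.continuous.measurable
  have hgi : Integrable (gam : E n → ℝ) := by
    have := g3 0
    simpa using this
  have hw1 : ∫⁻ z : E n, ‖gam z‖ₑ = 1 := by
    have h1 := ofReal_integral_eq_lintegral_ofReal hgi (Eventually.of_forall fun z => (g1 z).le)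
    rw [g2, ENNReal.ofReal_one] at h1
    rw [h1]
    refine lintegral_congr fun z => ?_
    rw [Real.enorm_eq_ofReal (g1 z).le]
  have key : ∀ x, ‖U f s x‖ₑ ≤ ∫⁻ z : E n, ‖gam z‖ₑ * ‖f (x - Real.sqrt s • z)‖ₑ := by
    intro x
    unfold U
    refine (enorm_integral_le_lintegral_enorm _).trans (le_of_eq ?_)
    refine lintegral_congr fun z => ?_
    rw [enorm_mul]
  constructor
  · calc ∫⁻ x, ‖U f s x‖ₑ ≤ ∫⁻ x, ∫⁻ z : E n, ‖gam z‖ₑ * ‖f (x - Real.sqrt s • z)‖ₑ :=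
          lintegral_mono key
      _ = _ := avg (fun z => ‖gam z‖ₑ) (fun x => ‖f x‖ₑ) hgm.enorm hfm.enorm _ hw1
  · have key2 : ∀ x, ‖U f s x‖ₑ ^ 2 ≤
        ∫⁻ z : E n, ‖gam z‖ₑ * ‖f (x - Real.sqrt s • z)‖ₑ ^ 2 := by
      intro x
      have hs : Measurable fun z : E n => x - Real.sqrt s • z := by fun_prop
      have hu0 : Measurable fun z : E n => f (x - Real.sqrt s • z) := hfm.comp hs
      have hu : Measurable fun z : E n => ‖f (x - Real.sqrt s • z)‖ₑ := hu0.enorm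
      calc ‖U f s x‖ₑ ^ 2 ≤ (∫⁻ z : E n, ‖gam z‖ₑ * ‖f (x - Real.sqrt s • z)‖ₑ) ^ 2 := by
            gcongr
            exact key x
        _ ≤ (∫⁻ z : E n, ‖gam z‖ₑ) *
            ∫⁻ z : E n, ‖gam z‖ₑ * ‖f (x - Real.sqrt s • z)‖ₑ ^ 2 :=
            cs_lintegral hgm.enorm.aemeasurable hu.aemeasurable
        _ = _ := by rw [hw1, one_mul]
    calc ∫⁻ x, ‖U f s x‖ₑ ^ 2
        ≤ ∫⁻ x, ∫⁻ z : E n, ‖gam z‖ₑ * ‖f (x - Real.sqrt s • z)‖ₑ ^ 2 := lintegral_mono key2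
      _ = _ := avg (fun z => ‖gam z‖ₑ) (fun x => ‖f x‖ₑ ^ 2) hgm.enorm (hfm.enorm.pow_const 2)
          _ hw1

end Pool.Agent.H89.TRI
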